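import Pool.Agent.H77.PM.Targets

/-!
Row CLF of the board pmh_modules (MP_5607ba_lc): sets with finitely many distances are closed.
-/

set_option autoImplicit false

open Set Filter Topology

namespace Pool.Agent.H41.PM

open Pool.Agent.H77.PM

theorem pf_CLF : T_CLF := by
  intro M _ q hfin
  obtain ⟨ε, hε, h⟩ : ∃ ε : ℝ, 0 < ε ∧ ∀ d ∈ {d : ℝ | ∃ i j, dist (q i) (q j) = d}, 0 < d →
      ε ≤ d := by
    have hF : ({d : ℝ | ∃ i j, dist (q i) (q j) = d} ∩ Ioi 0).Finite := hfin.inter_of_left _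
    rcases ({d : ℝ | ∃ i j, dist (q i) (q j) = d} ∩ Ioi 0).eq_empty_or_nonempty with h0 | h0
    · refine ⟨1, one_pos, fun d hd hd0 => ?_⟩
      exact absurd (h0 ▸ (⟨hd, hd0⟩ : d ∈ {d : ℝ | ∃ i j, dist (q i) (q j) = d} ∩ Ioi 0))
        (notMem_empty d)
    · obtain ⟨e, he, hmin⟩ := hF.exists_minimal h0
      refine ⟨e, he.2, fun d hd hd0 => ?_⟩
      rcases le_total d e with h1 | h1
      · exact hmin ⟨hd, hd0⟩ h1
      · exact h1
  refine Metric.isClosed_of_pairwise_le_dist hε ?_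
  rintro x ⟨i, rfl⟩ y ⟨j, rfl⟩ hxy
  exact h _ ⟨i, j, rfl⟩ (dist_pos.2 hxy)

end Pool.Agent.H41.PM
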